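import Pool.Agent.Helper36.SPR.St4

set_option autoImplicit false

namespace Pool.Agent.Helper84.SPR

open Pool.Agent.Helper36.SPR
open Finset

theorem hBI3 (hNB3 : StNB3) (hPR3 : StPR3) : StBI3 := by
  intro n T _ th hT hT1 j hj a ha
  have h1 := hPR3 n T th hT hT1 j hj a
  obtain ⟨_, _, _, _, _, hsq, hmono⟩ := hNB3 n T th hT j
  obtain ⟨_, hb2, hb20, _, _, _, _⟩ := hNB3 n T th hT (2 * j)
  have hn : (0 : ℝ) < n := by
    have := NeZero.pos n
    exact_mod_cast this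
  have hcs := Finset.sum_mul_sq_le_sq_mul_sq (univ : Finset (ZMod n)) (fun g => nuv n T th j g)
    (fun g => ‖muv n T th (a * g)‖ ^ (2 * j))
  have hs : ∑ g : ZMod n, (‖muv n T th (a * g)‖ ^ (2 * j)) ^ 2 = n * betv n T th (2 * j) := by
    rw [hb2, mul_div_cancel₀ _ hn.ne']
    obtain ⟨u, rfl⟩ := ha
    rw [← Equiv.sum_comp (Units.mulLeft u) (fun x : ZMod n => ‖muv n T th x‖ ^ (2 * (2 * j)))]
    refine Finset.sum_congr rfl fun g _ => ?_
    rw [Units.mulLeft_apply, ← pow_mul]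
    congr 1
    ring
  rw [hs, hsq] at hcs
  have h2 : ∑ g, nuv n T th j g * ‖muv n T th (a * g)‖ ^ (2 * j)
      ≤ Real.sqrt n * betv n T th (2 * j) := by
    refine le_trans (le_abs_self _) (abs_le_of_sq_le_sq ?_ (by positivity))
    rw [mul_pow, Real.sq_sqrt hn.le]
    linarith
  have h3 : betv n T th (2 * j) ≤ betv n T th j := hmono (2 * j) (by omega)
  calc ‖muv n T th a‖ ^ (4 * j ^ 2) ≤ _ := h1
    _ ≤ _ := h2
    _ ≤ _ := mul_le_mul_of_nonneg_left h3 (Real.sqrt_nonneg _)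

end Pool.Agent.Helper84.SPR
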